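import Mathlib
import Pool.Agent.Helper28K9.TG.Cross

/-!
# Automorphisms of degree-bounded plane spanning tree graphs

For `3 ≤ d ≤ n - 2` the automorphism group of the graph of plane spanning trees of maximum degree
at most `d` of `n` points in convex position is the dihedral group of order `2 n`.
-/

set_option autoImplicit false

namespace Pool.Agent.Results.MP_cf88b2_co.AutTreeGraph

open SimpleGraph

/-- the plane -/
abbrev Plane := EuclideanSpace ℝ (Fin 2)

/-- `G` is a plane spanning tree of the points `p 0, ..., p (n - 1)`, of maximum degree at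
most `d`: it is a tree on the index set, the segments of two different edges meet at most in a
common endpoint, and every vertex has at most `d` neighbours. -/
def IsPlaneTree {n : ℕ} (p : Fin n → Plane) (d : ℕ) (G : SimpleGraph (Fin n)) : Prop :=
  G.IsTree ∧
  (∀ a b c e : Fin n, G.Adj a b → G.Adj c e → s(a, b) ≠ s(c, e) →
    segment ℝ (p a) (p b) ∩ segment ℝ (p c) (p e) ⊆ p '' ({a, b} ∩ {c, e})) ∧
  ∀ v : Fin n, (G.neighborSet v).ncard ≤ d

/-- The graph of the plane spanning trees of maximum degree at most `d`; two trees are adjacent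
when they share exactly `n - 2` edges. -/
def treeGraph {n : ℕ} (p : Fin n → Plane) (d : ℕ) :
    SimpleGraph {G : SimpleGraph (Fin n) // IsPlaneTree p d G} where
  Adj G H := G ≠ H ∧ (G.1.edgeSet ∩ H.1.edgeSet).ncard = n - 2
  symm := ⟨fun _ _ h => ⟨h.1.symm, by rw [Set.inter_comm]; exact h.2⟩⟩
  loopless := ⟨fun _ h => h.1 rfl⟩

open Pool.Agent.Helper28K9.TG

lemma isPlaneTree_iff {n : ℕ} (p : Fin n → Plane) (d : ℕ) (G : SimpleGraph (Fin n)) :
    IsPlaneTree p d G ↔ IsPT (Rg p) d G := by
  unfold IsPlaneTree IsPT
  refine and_congr Iff.rfl (and_congr ?_ Iff.rfl)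
  constructor
  · intro h a b c e hab hce hR
    exact hR.2 (h a b c e hab hce hR.1)
  · intro h a b c e hab hce hne
    by_contra hcon
    exact h a b c e hab hce ⟨hne, hcon⟩

/-- comparison with the abstract tree graph -/
def compare {n : ℕ} (p : Fin n → Plane) (d : ℕ) : treeGraph p d ≃g TreeGraph (Rg p) d where
  toEquiv := Equiv.subtypeEquivRight (isPlaneTree_iff p d)
  map_rel_iff' := by
    intro G H
    simp only [treeGraph, TreeGraph, Nat.card_fin, Equiv.subtypeEquivRight_apply_coe, ne_eq,
      EmbeddingLike.apply_eq_iff_eq]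

/-- **Main theorem.** Let `3 ≤ d ≤ n - 2` and let `p 0, ..., p (n - 1)` be points of the plane in
convex position. Then the automorphism group of the graph of plane spanning trees of maximum
degree at most `d` is isomorphic to the dihedral group of order `2 n`. -/
theorem result : ∀ n d : ℕ, 3 ≤ d → d ≤ n - 2 → ∀ p : Fin n → Plane, ConvexIndependent ℝ p →
    Nonempty ((treeGraph p d ≃g treeGraph p d) ≃* DihedralGroup n) := by
  intro n d hd hdn p hp
  have hn : 5 ≤ n := by omega
  have hne : NeZero n := ⟨by omega⟩
  classical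
  obtain ⟨e, he⟩ := exists_cyclic hp
  obtain ⟨Φ⟩ := aut_dihedral (n := n) hn hd
  exact ⟨(conj ((compare p d).trans (relabel e d he))).trans Φ⟩

end Pool.Agent.Results.MP_cf88b2_co.AutTreeGraph
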